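import Mathlib

/-!
# Total domination in two-factorizations of `K(s,s)`: the bound `8 s` fails for every `s ≥ 24`

Let `a_i`, `b_j` be the vertices of `K(s,s)`. In `G_1` join `b_j` to all `a_i` with `i ≠ j` if
`j < s / 2`, and only to `a_j` if `j ≥ s / 2`; let `G_2` be the rest of `K(s,s)`. A total dominating
set of `G_1` contains all `a_j` with `j ≥ s / 2` and at least two of the vertices `b_j`, one of
`G_2` contains all `a_j` with `j < s / 2` and at least two of the vertices `b_j`. So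
`γ_t(G_1) γ_t(G_2) ≥ ⌊(s + 4)^2 / 4⌋`, which exceeds `8 s` for `s ≥ 24`.
-/

set_option autoImplicit false

namespace Pool.Agent.Results.MP_69ced1_co.ProductFails

open Finset

/-- `S` is a total dominating set of `G`: every vertex of `G` has a neighbour in `S`. -/
def IsTotalDominating {V : Type*} (G : SimpleGraph V) (S : Finset V) : Prop :=
  ∀ v, ∃ u ∈ S, G.Adj v u

/-- The total domination number: the least size of a total dominating set. -/
noncomputable def totalDomNum {V : Type*} (G : SimpleGraph V) : ℕ :=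
  sInf {k : ℕ | ∃ S : Finset V, IsTotalDominating G S ∧ S.card = k}

/-- No vertex of `G` is isolated. -/
def NoIsolated {V : Type*} (G : SimpleGraph V) : Prop := ∀ v, ∃ u, G.Adj v u

/-- `b_j` is joined to all `a_i` with `i ≠ j` if `P j` holds, and to `a_j` only otherwise. -/
def H (s : ℕ) (P : Fin s → Prop) : SimpleGraph (Fin s ⊕ Fin s) where
  Adj
    | .inl i, .inr j => (P j ∧ i ≠ j) ∨ (¬ P j ∧ i = j)
    | .inr j, .inl i => (P j ∧ i ≠ j) ∨ (¬ P j ∧ i = j)
    | _, _ => False
  symm := ⟨by rintro (i | i) (j | j) h <;> exact h⟩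
  loopless := ⟨by rintro (i | i) h <;> exact h⟩

lemma adj_lr {s : ℕ} {P : Fin s → Prop} (i j : Fin s) :
    (H s P).Adj (.inl i) (.inr j) ↔ (P j ∧ i ≠ j) ∨ (¬ P j ∧ i = j) := Iff.rfl

lemma adj_rl {s : ℕ} {P : Fin s → Prop} (i j : Fin s) :
    (H s P).Adj (.inr j) (.inl i) ↔ (P j ∧ i ≠ j) ∨ (¬ P j ∧ i = j) := Iff.rfl

lemma sup_eq (s : ℕ) (P : Fin s → Prop) :
    H s P ⊔ H s (fun j => ¬ P j) = completeBipartiteGraph (Fin s) (Fin s) := by
  ext u v
  rw [SimpleGraph.sup_adj]
  rcases u with i | i <;> rcases v with j | j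
  · simp [H]
  · rw [adj_lr, adj_lr]
    simp only [completeBipartiteGraph_adj, Sum.isLeft_inl, Sum.isRight_inr, and_self, true_or,
      iff_true]
    tauto
  · rw [adj_rl, adj_rl]
    simp only [completeBipartiteGraph_adj, Sum.isLeft_inl, Sum.isRight_inr, and_self, or_true,
      iff_true]
    tauto
  · simp [H]

lemma disj (s : ℕ) (P : Fin s → Prop) : Disjoint (H s P) (H s (fun j => ¬ P j)) := by
  rw [disjoint_iff]
  ext u v
  rw [SimpleGraph.inf_adj, SimpleGraph.bot_adj, iff_false]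
  rcases u with i | i <;> rcases v with j | j
  · simp [H]
  · rw [adj_lr, adj_lr]; tauto
  · rw [adj_rl, adj_rl]; tauto
  · simp [H]

lemma no_isolated {s : ℕ} (P : Fin s → Prop) (h : ∃ j k, j ≠ k ∧ P j ∧ P k) :
    NoIsolated (H s P) := by
  obtain ⟨j, k, hjk, hj, hk⟩ := h
  rintro (i | i)
  · by_cases hij : i = j
    · exact ⟨.inr k, (adj_lr i k).2 (Or.inl ⟨hk, by rw [hij]; exact hjk⟩)⟩
    · exact ⟨.inr j, (adj_lr i j).2 (Or.inl ⟨hj, hij⟩)⟩
  · by_cases hi : P i
    · by_cases hij : j = i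
      · exact ⟨.inl k, (adj_rl k i).2 (Or.inl ⟨hi, by rw [← hij]; exact hjk.symm⟩)⟩
      · exact ⟨.inl j, (adj_rl j i).2 (Or.inl ⟨hi, hij⟩)⟩
    · exact ⟨.inl i, (adj_rl i i).2 (Or.inr ⟨hi, rfl⟩)⟩

lemma lower {s : ℕ} (hs : 2 ≤ s) (P : Fin s → Prop) [DecidablePred P]
    (S : Finset (Fin s ⊕ Fin s)) (hS : IsTotalDominating (H s P) S) :
    (univ.filter (fun j => ¬ P j)).card + 2 ≤ S.card := by
  have hleft : ∀ j, ¬ P j → Sum.inl j ∈ S := by
    intro j hj
    obtain ⟨u, hu, ha⟩ := hS (.inr j)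
    rcases u with i | i
    · rw [adj_rl] at ha
      rcases ha with ⟨h, _⟩ | ⟨_, h⟩
      · exact absurd h hj
      · exact h ▸ hu
    · exact ha.elim
  have hright : ∀ i, ∃ j, Sum.inr j ∈ S ∧ ((P j ∧ i ≠ j) ∨ (¬ P j ∧ i = j)) := by
    intro i
    obtain ⟨u, hu, ha⟩ := hS (.inl i)
    rcases u with j | j
    · exact ha.elim
    · exact ⟨j, hu, ha⟩
  obtain ⟨j, hj, _⟩ := hright ⟨0, by omega⟩
  -- a vertex not adjacent to `b_j`
  have : ∃ k, Sum.inr k ∈ S ∧ k ≠ j := by
    by_cases hP : P j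
    · obtain ⟨k, hk, h⟩ := hright j
      refine ⟨k, hk, ?_⟩
      rintro rfl
      rcases h with ⟨_, h⟩ | ⟨h, _⟩
      · exact h rfl
      · exact h hP
    · have : ∃ i : Fin s, i ≠ j := by
        by_cases h0 : j = ⟨0, by omega⟩
        · exact ⟨⟨1, by omega⟩, by rw [h0]; simp⟩
        · exact ⟨⟨0, by omega⟩, fun h => h0 h.symm⟩
      obtain ⟨i, hi⟩ := this
      obtain ⟨k, hk, h⟩ := hright i
      refine ⟨k, hk, ?_⟩
      rintro rfl
      rcases h with ⟨h, _⟩ | ⟨_, h⟩
      · exact hP h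
      · exact hi h
  obtain ⟨k, hk, hkj⟩ := this
  have hsub : (univ.filter (fun j => ¬ P j)).image Sum.inl ∪
      ({Sum.inr k, Sum.inr j} : Finset (Fin s ⊕ Fin s)) ⊆ S := by
    intro u hu
    simp only [mem_union, mem_image, mem_filter, mem_univ, true_and, mem_insert,
      mem_singleton] at hu
    rcases hu with ⟨i, hi, rfl⟩ | rfl | rfl
    · exact hleft i hi
    · exact hk
    · exact hj
  refine le_trans ?_ (card_le_card hsub)
  rw [card_union_of_disjoint, card_image_of_injective _ Sum.inl_injective, card_pair]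
  · intro h
    exact hkj (Sum.inr_injective h)
  · rw [disjoint_left]
    intro u hu
    simp only [mem_image] at hu
    obtain ⟨i, _, rfl⟩ := hu
    simp

lemma le_totalDomNum {V : Type*} [Fintype V] (G : SimpleGraph V) (hG : NoIsolated G) (k : ℕ)
    (h : ∀ S : Finset V, IsTotalDominating G S → k ≤ S.card) : k ≤ totalDomNum G := by
  have hne : {k : ℕ | ∃ S : Finset V, IsTotalDominating G S ∧ S.card = k}.Nonempty :=
    ⟨_, univ, fun v => by obtain ⟨u, hu⟩ := hG v; exact ⟨u, mem_univ u, hu⟩, rfl⟩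
  obtain ⟨S, hS, hc⟩ := Nat.sInf_mem hne
  have := h S hS
  unfold totalDomNum
  omega

/-- For every `s ≥ 4` there are spanning subgraphs `G₁`, `G₂` of `K(s,s)` without isolated vertices
whose edge sets partition the edge set of `K(s,s)`, such that
`γ_t(G₁) γ_t(G₂) ≥ ⌊(s + 4)^2 / 4⌋`. For `s ≥ 24` this is greater than `8 s`. -/
theorem result (s : ℕ) (hs : 4 ≤ s) :
    ∃ G₁ G₂ : SimpleGraph (Fin s ⊕ Fin s),
      G₁ ⊔ G₂ = completeBipartiteGraph (Fin s) (Fin s) ∧ Disjoint G₁ G₂ ∧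
      NoIsolated G₁ ∧ NoIsolated G₂ ∧
      (s + 4) ^ 2 / 4 ≤ totalDomNum G₁ * totalDomNum G₂ ∧
      (24 ≤ s → 8 * s < totalDomNum G₁ * totalDomNum G₂) := by
  set p := s / 2 with hp
  set P : Fin s → Prop := fun j => j.val < p with hP
  have : DecidablePred P := fun j => inferInstanceAs (Decidable (j.val < p))
  have i1 : NoIsolated (H s P) :=
    no_isolated P ⟨⟨0, by omega⟩, ⟨1, by omega⟩, by simp, show 0 < p by omega,
      show 1 < p by omega⟩
  have i2 : NoIsolated (H s (fun j => ¬ P j)) :=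
    no_isolated _ ⟨⟨s - 1, by omega⟩, ⟨s - 2, by omega⟩,
      by rw [Ne, Fin.mk.injEq]; omega, show ¬ (s - 1 < p) by omega,
      show ¬ (s - 2 < p) by omega⟩
  have c1 : (univ.filter (fun j => P j)).card = p := by
    have h := Fin.card_filter_val_lt (n := s) (m := p)
    rw [min_eq_right (by omega : p ≤ s)] at h
    rw [← h]
    congr 1
    ext j
    simp only [mem_filter, hP]
  have c2 : (univ.filter (fun j => ¬ P j)).card = s - p := by
    have h := card_filter_add_card_filter_not (s := (univ : Finset (Fin s))) P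
    rw [c1, card_univ, Fintype.card_fin] at h
    omega
  have h1 : s - p + 2 ≤ totalDomNum (H s P) := by
    apply le_totalDomNum _ i1
    intro S hS
    have := lower (by omega) P S hS
    rwa [c2] at this
  have h2 : p + 2 ≤ totalDomNum (H s (fun j => ¬ P j)) := by
    apply le_totalDomNum _ i2
    intro S hS
    have := lower (by omega) (fun j => ¬ P j) S hS
    simp only [not_not] at this
    rwa [c1] at this
  have h3 : (s - p + 2) * (p + 2) ≤
      totalDomNum (H s P) * totalDomNum (H s (fun j => ¬ P j)) := Nat.mul_le_mul h1 h2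
  have h4 : (s + 4) ^ 2 / 4 ≤ (s - p + 2) * (p + 2) := by
    rcases Nat.even_or_odd' s with ⟨m, hm | hm⟩
    · have : p = m := by omega
      rw [this, hm, show 2 * m - m = m by omega, show (2 * m + 4) ^ 2 = 4 * ((m + 2) * (m + 2)) by
        ring, Nat.mul_div_cancel_left _ (by norm_num)]
    · have : p = m := by omega
      rw [this, hm, show 2 * m + 1 - m = m + 1 by omega,
        show (2 * m + 1 + 4) ^ 2 = 1 + 4 * ((m + 1 + 2) * (m + 2)) by ring,
        Nat.add_mul_div_left _ _ (by norm_num)]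
      omega
  refine ⟨H s P, H s (fun j => ¬ P j), sup_eq s P, disj s P, i1, i2, h4.trans h3, fun h24 => ?_⟩
  refine lt_of_lt_of_le ?_ h3
  obtain ⟨m, hm⟩ : ∃ m, s = 24 + m := ⟨s - 24, by omega⟩
  obtain ⟨q, hq⟩ : ∃ q, p = 12 + q := ⟨p - 12, by omega⟩
  have h5 : s - p + 2 = 14 + (m - q) := by omega
  have h6 : p + 2 = 14 + q := by omega
  have h7 : q ≤ m := by omega
  rw [h5, h6, hm]
  nlinarith [Nat.zero_le ((m - q) * q), Nat.sub_add_cancel h7]

end Pool.Agent.Results.MP_69ced1_co.ProductFails
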